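import Pool.Agent.Helper86.UL.GL
import Pool.Agent.Helper90.UL.INF
import Pool.Agent.Helper6.UL.LOC
import Pool.Agent.Helper69.UL.TREE
import Pool.Agent.Helper6.UL.FL
import Pool.Agent.Helper65.UL.RES
import Pool.Agent.Helper13.UL.FPS
import Pool.Agent.Helper27.UL.RL4
import Pool.Agent.Helper77.UL.RL
import Pool.Agent.Helper60.UL.FPST
import Pool.Agent.Helper50.UL.PD0
import Pool.Agent.Helper37.UL.PD
import Pool.Agent.Helper5.UL.HFA
import Pool.Agent.Helper14.UL.MES
import Pool.Agent.Helper94.UL.GEN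
import Pool.Agent.Helper69.UL.BP
import Pool.Agent.Helper54.UL.DCC
import Pool.Agent.Helper65.UL.REP
import Pool.Agent.Helper56.UL.DEF
import Pool.Agent.Helper85.UL.TRU
import Pool.Agent.Helper75.UL.OPV
import Pool.Agent.Helper25.UL.INV
import Pool.Agent.Helper13.UL.COD
import Pool.Agent.Helper77.UL.CDP
import Pool.Agent.Helper58.UL.MIX
import Pool.Agent.Helper49.UL.GDS
import Pool.Agent.Helper27.UL.POS
import Pool.Agent.Helper33.UL.C1L
import Pool.Agent.Helper83.UL.C1
import Pool.Agent.Helper89.UL.PFC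
import Pool.Agent.Helper67.UL.MDC
import Pool.Agent.Helper57.UL.ORD
import Pool.Agent.Helper90.UL.CLO
import Pool.Agent.Helper93.UL.CL2
import Pool.Agent.Helper50.UL.CL3
import Pool.Agent.Helper19.UL.CL4
import Pool.Agent.Helper11.UL.PSM
import Pool.Agent.Helper60.UL.WIT
import Pool.Agent.Helper45.UL.WFM
import Pool.Agent.Helper3.UL.DIAG
import Pool.Agent.Helper40.UL.SIGC
import Pool.Agent.Helper70.UL.DICH
import Pool.Agent.Helper46.UC.All
import Pool.Agent.Helper79.UN.All
import Pool.Agent.Helper15.UL.Asm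

/-! # MP_57a173_lc: Ulam's problem on projective sets over a countable family of sets

There is a model of ZFC in which the negated form of Q1 holds. The model is the two-valued quotient
of the Boolean-valued universe over the regular open algebra of the monoid of the maps `f` with
`UL.IsM f`, an iteration of Laver forcing with countable supports along a well-ordered set of type
`(2 ^ ℵ₀)⁺`. See `Pool/Agent/Helper15/UL/`, `Pool/Agent/Helper46/UC/`, `Pool/Agent/Helper79/UN/`. -/

namespace Pool.Agent.Results.MP_57a173_lc.NegationConsistent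

open UL

/-- There is a model of ZFC in which the following holds. For every set `K` and every sequence of
subsets of `K`, either all Borel sets over the sequence are of class at most `2`, or some set in the
sigma-algebra on `K × K` generated by the rectangles of Borel sets over the sequence has a projection
which is not Borel over the sequence. -/
theorem result : ∃ (N : Type 1) (E : N → N → Prop),
    Pool.Agent.Helper97.Ku.IsZFC N E ∧ UL.Phi E := by
  have hGL : G_GL := PkGL.thm
  have hINF : G_INF := PkINF.thm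
  have hLOC : G_LOC := PkLOC.thm
  have hTREE : G_TREE := PkTREE.thm
  have hFL : G_FL := PkFL.thm
  have hRES : G_RES := PkRES.thm
  have hFPS : G_FPS := PkFPS.thm hFL
  have hRL4 : G_RL4 := PkRL4.thm hINF
  have hRL : G_RL := PkRL.thm hRL4 hTREE
  have hFPST : G_FPST := PkFPST.thm hRES hFPS hRL hGL hLOC
  have hPD0 : G_PD0 := PkPD0.thm hRL hGL
  have hPD : G_PD := PkPD.thm hPD0 hLOC
  have hHFA : G_HFA := PkHFA.thm hFPST hRES hFPS hPD0 hPD
  have hMES : G_MES := PkMES.thm
  have hGEN : G_GEN := PkGEN.thm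
  have hBP : G_BP := PkBP.thm hGEN
  have hDCC : G_DCC := PkDCC.thm hBP
  have hREP : G_REP := PkREP.thm
  have hDEF : G_DEF := PkDEF.thm
  have hTRU : G_TRU := PkTRU.thm hBP
  have hOPV : G_OPV := PkOPV.thm hDCC
  have hINV : G_INV := PkINV.thm hGEN
  have hCOD : G_COD := PkCOD.thm hGEN
  have hCDP : G_CDP := PkCDP.thm hGEN
  have hMIX : G_MIX := PkMIX.thm
  have hGDS : G_GDS := PkGDS.thm
  have hPOS : G_POS := PkPOS.thm
  have hC1L : G_C1L := PkC1L.thm hBP hREP hDEF hDCC hOPV hGDS hPOS hTREE hMES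
  have hC1 : G_C1 := PkC1.thm hC1L hMIX
  have hPFC : G_PFC := PkPFC.thm
  have hMDC : G_MDC := PkMDC.thm
  have hORD : G_ORD := PkORD.thm
  have hCLO : G_CLO := PkCLO.thm hPFC hMDC hCOD hCDP
  have hCL2 : G_CL2 := PkCL2.thm hREP
  have hCL3 : G_CL3 := PkCL3.thm hREP hDCC hINV hMES
  have hCL4 : G_CL4 := PkCL4.thm hCL2 hCL3 hCLO
  have hPSM : G_PSM := PkPSM.thm
  have hWIT : G_WIT := PkWIT.thm hGEN
  have hWFM : G_WFM := PkWFM.thm hPSM hCOD
  have hDIAG : G_DIAG := PkDIAG.thm hWFM hWIT hCDP hBP hREP hTRU hDEF hDCC hMES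
  have hSIGC : G_SIGC := PkSIGC.thm hINV hCOD hREP hDCC hMES
  have hDICH : G_DICH := PkDICH.thm hC1 hCL4 hDIAG
  have hHT : G_HT := UC.ht_all hFL hMES
  exact UN.model (asm hHFA hHT hSIGC hDICH hORD)

end Pool.Agent.Results.MP_57a173_lc.NegationConsistent
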