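import Mathlib

/-!
Projective sets over a countable family of sets (Ulam): if every projective set over `A` is Borel
over `A`, then every map from `E` to a Polish space that is measurable with respect to the Borel
sets over `A` has a range which contains no uncountable Borel set.
-/

namespace Pool.Agent.Results.MP_57a173_lc.TotallyImperfect

open Set MeasureTheory

variable {E : Type*}

/-- The sigma-algebra `B(A)` of the Borel sets over the sequence `A`. -/
@[reducible] def borelOver (A : ℕ → Set E) : MeasurableSpace E := MeasurableSpace.generateFrom (Set.range A)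

/-- Projective sets over `A` of class `k` (there are none of class `0`). Class `1`: projections
of the members of the sigma-algebra generated by the rectangles `A m ×ˢ A n`. Class `k + 1`:
projections of the members of the sigma-algebra generated by the rectangles `P ×ˢ Q`, each of `P`
and `Q` being Borel over `A` or projective of class `≤ k`. -/
def ProjClass (A : ℕ → Set E) (k : ℕ) : Set E → Prop :=
  match k with
  | 0 => fun _ => False
  | 1 => fun S => ∃ W : Set (E × E),
      MeasurableSet[MeasurableSpace.generateFrom {R | ∃ m n, R = A m ×ˢ A n}] W ∧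
        S = Prod.fst '' W
  | k + 2 => fun S => ∃ W : Set (E × E),
      MeasurableSet[MeasurableSpace.generateFrom {R | ∃ P Q : Set E,
        (MeasurableSet[borelOver A] P ∨ ∃ j : Fin (k + 2), ProjClass A j.1 P) ∧
        (MeasurableSet[borelOver A] Q ∨ ∃ j : Fin (k + 2), ProjClass A j.1 Q) ∧
        R = P ×ˢ Q}] W ∧
        S = Prod.fst '' W
  termination_by k

/-- Characteristic map of the sequence. -/
noncomputable def chi (A : ℕ → Set E) (x : E) : ℕ → Bool := by
  classical exact fun n => decide (x ∈ A n)

theorem chi_meas (A : ℕ → Set E) : Measurable[borelOver A] (chi A) := by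
  classical
  let _ : MeasurableSpace E := borelOver A
  rw [measurable_pi_iff]
  intro n
  have : MeasurableSet (A n) := MeasurableSpace.measurableSet_generateFrom ⟨n, rfl⟩
  exact measurable_to_bool (by
    have h : (fun x => chi A x n) ⁻¹' {true} = A n := by
      ext x; simp [chi]
    rw [h]; exact this)

/-- Every Borel set over `A` is the preimage of a Borel set under the characteristic map. -/
theorem exists_borel (A : ℕ → Set E) {S : Set E} (hS : MeasurableSet[borelOver A] S) :
    ∃ B : Set (ℕ → Bool), MeasurableSet B ∧ S = chi A ⁻¹' B := by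
  classical
  have h : borelOver A ≤ MeasurableSpace.comap (chi A) inferInstance := by
    refine MeasurableSpace.generateFrom_le ?_
    rintro _ ⟨n, rfl⟩
    refine ⟨{c | c n = true}, measurableSet_eq_fun (measurable_pi_apply n) measurable_const, ?_⟩
    ext x; simp [chi]
  obtain ⟨B, hB, hBS⟩ := h S hS
  exact ⟨B, hB, hBS.symm⟩

/-- A universal closed set, as a measurable set of pairs (code, point). -/
theorem exists_universal (Y : Type*) [TopologicalSpace Y] [SecondCountableTopology Y]
    [MeasurableSpace Y] [BorelSpace Y] :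
    ∃ G : Set ((ℕ → Bool) × Y), MeasurableSet G ∧
      ∀ C : Set Y, IsClosed C → ∃ c : ℕ → Bool, ∀ y, (c, y) ∈ G ↔ y ∈ C := by
  classical
  obtain ⟨b, hbc, _, hb⟩ := TopologicalSpace.exists_countable_basis Y
  by_cases hbe : b = ∅
  · -- only the empty space
    have hY : IsEmpty Y := by
      by_contra hne
      rw [not_isEmpty_iff] at hne
      obtain ⟨y⟩ := hne
      have := hb.sUnion_eq
      rw [hbe, Set.sUnion_empty] at this
      exact absurd (Set.mem_univ y) (by rw [← this]; simp)
    exact ⟨∅, MeasurableSet.empty, fun C _ => ⟨fun _ => true, fun y => (hY.false y).elim⟩⟩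
  · obtain ⟨O, hO⟩ := hbc.exists_eq_range (Set.nonempty_iff_ne_empty.2 hbe)
    refine ⟨⋂ n, {p | p.1 n = true → p.2 ∉ O n}, ?_, ?_⟩
    · refine MeasurableSet.iInter fun n => ?_
      have hOn : MeasurableSet (O n) := (hb.isOpen (hO ▸ ⟨n, rfl⟩)).measurableSet
      have h1 : MeasurableSet {p : (ℕ → Bool) × Y | p.1 n = true} :=
        measurableSet_eq_fun ((measurable_pi_apply n).comp measurable_fst) measurable_const
      have h2 : MeasurableSet {p : (ℕ → Bool) × Y | p.2 ∉ O n} :=
        (measurable_snd hOn).compl
      have h3 : {p : (ℕ → Bool) × Y | p.1 n = true → p.2 ∉ O n} =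
          {p | p.1 n = true}ᶜ ∪ {p | p.2 ∉ O n} := by
        ext p
        simp only [Set.mem_union, Set.mem_compl_iff]
        exact imp_iff_not_or
      rw [h3]
      exact h1.compl.union h2
    · intro C hC
      refine ⟨fun n => decide (O n ∩ C = ∅), fun y => ?_⟩
      rw [Set.mem_iInter]
      constructor
      · intro h
        by_contra hy
        obtain ⟨V, hV, hyV, hVC⟩ := hb.exists_subset_of_mem_open
          (show y ∈ Cᶜ from hy) hC.isOpen_compl
        rw [hO] at hV
        obtain ⟨n, rfl⟩ := hV
        refine h n ?_ hyV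
        change decide (O n ∩ C = ∅) = true
        rw [decide_eq_true_iff]
        exact Set.eq_empty_of_forall_notMem fun z hz => hVC hz.1 hz.2
      · intro hy n hn hyn
        change decide (O n ∩ C = ∅) = true at hn
        rw [decide_eq_true_iff] at hn
        exact Set.notMem_empty y (hn ▸ ⟨hyn, hy⟩)

theorem polishCantor : PolishSpace (ℕ → Bool) := by
  have : TopologicalSpace.IsCompletelyMetrizableSpace (ℕ → Bool) :=
    TopologicalSpace.IsCompletelyMetrizableSpace.pi_countable
  infer_instance

theorem not_surj (A : ℕ → Set E)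
    (hb : ∀ W : Set (E × E), MeasurableSet[(borelOver A).prod (borelOver A)] W →
      MeasurableSet[borelOver A] (Prod.fst '' W))
    (g : E → ℕ → Bool) (hg : Measurable[borelOver A] g) : ¬ Function.Surjective g := by
  classical
  intro hsurj
  let _ : MeasurableSpace E := borelOver A
  -- a surjection onto the Baire space
  have hnc : ¬ Countable (ℕ → Bool) := by
    rw [← Cardinal.mk_le_aleph0_iff, not_le]
    simpa using Cardinal.aleph0_lt_continuum
  have hnc' : ¬ Countable (ℕ → ℕ) := by
    rw [← Cardinal.mk_le_aleph0_iff, not_le]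
    simpa using Cardinal.aleph0_lt_continuum
  let eq : (ℕ → Bool) ≃ᵐ (ℕ → ℕ) := PolishSpace.measurableEquivOfNotCountable hnc hnc'
  let h : E → ℕ → ℕ := fun x => eq (g x)
  have hh : Measurable h := eq.measurable.comp hg
  have hhs : Function.Surjective h := eq.surjective.comp hsurj
  obtain ⟨G, hG, hU⟩ := exists_universal ((ℕ → Bool) × (ℕ → ℕ))
  let W : Set (E × E) := {p | (g p.1, (chi A p.1, h p.2)) ∈ G}
  have hW : MeasurableSet W := by
    have : Measurable fun p : E × E => (g p.1, (chi A p.1, h p.2)) :=
      (hg.comp measurable_fst).prodMk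
        (((chi_meas A).comp measurable_fst).prodMk (hh.comp measurable_snd))
    exact this hG
  have hS : MeasurableSet (Prod.fst '' W)ᶜ := (hb W hW).compl
  obtain ⟨B, hB, hBS⟩ := exists_borel A hS
  -- a closed set projecting onto `B`
  obtain ⟨C, hC, hCB⟩ : ∃ C : Set ((ℕ → Bool) × (ℕ → ℕ)), IsClosed C ∧
      ∀ y, y ∈ B ↔ ∃ z, (y, z) ∈ C := by
    have := polishCantor
    have han : AnalyticSet B := hB.analyticSet
    rw [AnalyticSet] at han
    rcases han with rfl | ⟨φ, hφ, rfl⟩
    · exact ⟨∅, isClosed_empty, fun y => by simp⟩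
    · refine ⟨{p | φ p.2 = p.1}, isClosed_eq (hφ.comp continuous_snd) continuous_fst, ?_⟩
      intro y
      simp
  obtain ⟨c, hc⟩ := hU C hC
  obtain ⟨x, hx⟩ := hsurj c
  have h1 : x ∈ (Prod.fst '' W)ᶜ ↔ chi A x ∈ B := by rw [hBS]; rfl
  have h2 : x ∈ Prod.fst '' W ↔ chi A x ∈ B := by
    rw [hCB]
    constructor
    · rintro ⟨⟨x', e⟩, hp, rfl⟩
      have hp' : (g x', (chi A x', h e)) ∈ G := hp
      rw [hx, hc] at hp'
      exact ⟨h e, hp'⟩
    · rintro ⟨z, hz⟩
      obtain ⟨e, he⟩ := hhs z
      refine ⟨(x, e), ?_, rfl⟩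
      change (g x, (chi A x, h e)) ∈ G
      rw [hx, he, hc]
      exact hz
  rw [Set.mem_compl_iff, h2] at h1
  tauto

theorem result (A : ℕ → Set E)
    (hb : ∀ (k : ℕ) (S : Set E), ProjClass A k S → MeasurableSet[borelOver A] S)
    {X : Type*} [TopologicalSpace X] [PolishSpace X] [MeasurableSpace X] [BorelSpace X]
    (h : E → X) (hh : Measurable[borelOver A] h) (K : Set X) (hK : MeasurableSet K)
    (hKh : K ⊆ Set.range h) : K.Countable := by
  classical
  by_contra hun
  have hb' : ∀ W : Set (E × E), MeasurableSet[(borelOver A).prod (borelOver A)] W →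
      MeasurableSet[borelOver A] (Prod.fst '' W) := by
    intro W hW
    refine hb 2 _ ?_
    rw [ProjClass]
    refine ⟨W, ?_, rfl⟩
    let _ : MeasurableSpace E := borelOver A
    have h1 : MeasurableSet W := hW
    rw [← generateFrom_prod] at h1
    refine MeasurableSpace.generateFrom_mono ?_ W h1
    rintro R ⟨P, hP, Q, hQ, rfl⟩
    exact ⟨P, Q, Or.inl hP, Or.inl hQ, rfl⟩
  have : StandardBorelSpace K := hK.standardBorel
  have hnc : ¬ Countable (ℕ → Bool) := by
    rw [← Cardinal.mk_le_aleph0_iff, not_le]
    simpa using Cardinal.aleph0_lt_continuum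
  have hncK : ¬ Countable K := fun hc => hun (Set.countable_coe_iff.1 hc)
  let e : K ≃ᵐ (ℕ → Bool) := PolishSpace.measurableEquivOfNotCountable hncK hnc
  obtain ⟨φ, hφ, hφe⟩ := (MeasurableEmbedding.subtype_coe hK).exists_measurable_extend
    e.measurable (fun _ => ⟨fun _ => true⟩)
  refine not_surj A hb' (fun x => φ (h x)) (hφ.comp hh) ?_
  intro c
  obtain ⟨x, hx⟩ := hKh (e.symm c).2
  refine ⟨x, ?_⟩
  dsimp only
  rw [hx]
  have := congrFun hφe (e.symm c)
  simpa using this

end Pool.Agent.Results.MP_57a173_lc.TotallyImperfect
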